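import Mathlib
import Pool.Agent.H46.VT.Red
import Pool.Agent.H46.VT.Tools

/-!
# MP_36d07e_lc: module BA
-/

namespace Pool.Agent.H73.VT

open _root_.VT
open Pool.Agent.H46.VT
open Nat.Partrec (Code)
open Encodable

theorem cov_mono {A U : Set ℕ} {E : ℕ → List ℕ} {p : ℕ → ℕ} {S T : Set ℕ} (hST : S ⊆ T)
    (h : Cov A U E p T) : Cov A U E p S := by
  obtain ⟨pl, h1, h2⟩ := h
  exact ⟨pl, h1, fun x hx => h2 x (hST hx)⟩

theorem cov_union {A U : Set ℕ} {E : ℕ → List ℕ} {p : ℕ → ℕ} {S T : Set ℕ}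
    (hS : Cov A U E p S) (hT : Cov A U E p T) : Cov A U E p (S ∪ T) := by
  obtain ⟨pl, h1, h2⟩ := hS
  obtain ⟨pm, h3, h4⟩ := hT
  refine ⟨pl ++ pm, ?_, ?_⟩
  · intro q hq
    rcases List.mem_append.1 hq with h | h
    · exact h1 q h
    · exact h3 q h
  · rintro x (hx | hx)
    · obtain ⟨q, hq, hxq⟩ := h2 x hx
      exact ⟨q, List.mem_append.2 (Or.inl hq), hxq⟩
    · obtain ⟨q, hq, hxq⟩ := h4 x hx
      exact ⟨q, List.mem_append.2 (Or.inr hq), hxq⟩

theorem cov_empty {A U : Set ℕ} {E : ℕ → List ℕ} {p : ℕ → ℕ} {S : Set ℕ} (hS : S ⊆ ∅) :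
    Cov A U E p S := by
  refine ⟨[], by simp, ?_⟩
  intro x hx
  exact absurd (hS hx) (Set.notMem_empty x)

/-- flattening a list of pairs -/
def flat (pl : List (Code × Code)) : List Code := pl.flatMap (fun q => [q.1, q.2])

theorem flat_cons (q : Code × Code) (pl : List (Code × Code)) :
    flat (q :: pl) = q.1 :: q.2 :: flat pl := by
  simp [flat]

theorem presSet_flat (pl : List (Code × Code)) (x : ℕ) :
    x ∈ presSet (flat pl) ↔ ∃ q ∈ pl, x ∈ W q.1 \ W q.2 := by
  induction pl with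
  | nil => simp [flat, presSet]
  | cons q pl ih =>
    rw [flat_cons]
    simp only [presSet, Set.mem_union, ih, List.mem_cons]
    constructor
    · rintro (h | ⟨q', hq', h⟩)
      · exact ⟨q, Or.inl rfl, h⟩
      · exact ⟨q', Or.inr hq', h⟩
    · rintro ⟨q', hq' | hq', h⟩
      · subst hq'; exact Or.inl h
      · exact Or.inr ⟨q', hq', h⟩

theorem presSt_flat (pl : List (Code × Code)) (s x : ℕ) :
    presSt (flat pl) s x ↔ ∃ q ∈ pl, Wst q.1 s x ∧ ¬ Wst q.2 s x := by
  induction pl with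
  | nil => simp [flat, presSt]
  | cons q pl ih =>
    rw [flat_cons]
    simp only [presSt, ih, List.mem_cons]
    constructor
    · rintro (h | ⟨q', hq', h⟩)
      · exact ⟨q, Or.inl rfl, h⟩
      · exact ⟨q', Or.inr hq', h⟩
    · rintro ⟨q', hq' | hq', h⟩
      · subst hq'; exact Or.inl h
      · exact Or.inr ⟨q', hq', h⟩

theorem ce_tail {R : ℕ → Set ℕ} (hR : ∀ n, CE (R n) ∧ CE (R n)ᶜ) (n : ℕ) :
    CE {x | ∀ m ≤ n, x ∉ R m} ∧ CE {x | ∀ m ≤ n, x ∉ R m}ᶜ := by
  induction n with
  | zero =>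
    have e : {x | ∀ m ≤ 0, x ∉ R m} = (R 0)ᶜ := by
      ext x
      simp
    rw [e, compl_compl]
    exact ⟨(hR 0).2, (hR 0).1⟩
  | succ n ih =>
    have e : {x | ∀ m ≤ n + 1, x ∉ R m} = {x | ∀ m ≤ n, x ∉ R m} ∩ (R (n + 1))ᶜ := by
      ext x
      constructor
      · intro h
        exact ⟨fun m hm => h m (by omega), h (n + 1) le_rfl⟩
      · rintro ⟨h1, h2⟩ m hm
        rcases Nat.lt_or_ge n m with h | h
        · have : m = n + 1 := by omega
          subst this
          exact h2
        · exact h1 m h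
    rw [e]
    refine ⟨ce_inter ih.1 (hR _).2, ?_⟩
    rw [Set.compl_inter, compl_compl]
    exact ce_union ih.2 (hR _).1

/-- translating a bound -/
theorem exists_bound {A B R : Set ℕ} {E E' : ℕ → List ℕ} (hE : IsEnum A E) (hE' : IsEnum B E')
    {p : ℕ → ℕ} (hp : Computable p) (hmono : Monotone p) (hR : CE R) (hRc : CE Rᶜ)
    (hsub : A ∩ R ⊆ B) : ∃ p' : ℕ → ℕ, Computable p' ∧ Monotone p' ∧
      ∀ s, ∀ x ∈ E (p s), x ∈ R → x ∈ E' (p' s) := by
  classical
  have hRcomp : ComputablePred (fun x => x ∈ R) :=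
    ComputablePred.computable_iff_re_compl_re'.2 ⟨hR, hRc⟩
  let P : ℕ → ℕ → Prop := fun s t => ∀ j < (E (p s)).length,
    (E (p s)).getD j 0 ∈ R → (E (p s)).getD j 0 ∈ E' t
  have hP : ComputablePred (fun q : ℕ × ℕ => P q.1 q.2) := by
    have hl : Computable (fun q : (ℕ × ℕ) × ℕ => E (p q.1.1)) :=
      hE.comp.comp (hp.comp (Computable.fst.comp Computable.fst))
    have hx : Computable (fun q : (ℕ × ℕ) × ℕ => (E (p q.1.1)).getD q.2 0) :=
      co_getD 0 hl Computable.snd
    refine cp_forall_lt (p := fun (q : ℕ × ℕ) j => (E (p q.1)).getD j 0 ∈ R →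
      (E (p q.1)).getD j 0 ∈ E' q.2) (n := fun q : ℕ × ℕ => (E (p q.1)).length) ?_ ?_
    · refine cp_imp ?_ ?_
      · exact cp_comp (p := fun x => x ∈ R) (f := fun q : (ℕ × ℕ) × ℕ =>
          (E (p q.1.1)).getD q.2 0) hRcomp hx
      · exact cp_mem (l := fun q : (ℕ × ℕ) × ℕ => E' q.1.2)
          (x := fun q : (ℕ × ℕ) × ℕ => (E (p q.1.1)).getD q.2 0)
          (hE'.comp.comp (Computable.snd.comp Computable.fst)) hx
    · exact (Primrec.list_length.to_comp).comp (hE.comp.comp (hp.comp Computable.fst))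
  have hPiff : ∀ s t, P s t ↔ ∀ x ∈ E (p s), x ∈ R → x ∈ E' t := by
    intro s t
    constructor
    · intro h x hx hxR
      obtain ⟨j, hj, hjx⟩ := List.getElem_of_mem hx
      have h1 := h j hj
      rw [List.getD_eq_getElem _ _ hj, hjx] at h1
      exact h1 hxR
    · intro h j hj
      rw [List.getD_eq_getElem _ _ hj]
      exact h _ (List.getElem_mem hj)
  have hex : ∀ s, ∃ t, P s t := by
    intro s
    have key : ∀ L : List ℕ, (∀ x ∈ L, x ∈ A) → ∃ t, ∀ x ∈ L, x ∈ R → x ∈ E' t := by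
      intro L
      induction L with
      | nil => intro _; exact ⟨0, by simp⟩
      | cons y L ih =>
        intro hL
        obtain ⟨t, ht⟩ := ih (fun x hx => hL x (List.mem_cons_of_mem _ hx))
        by_cases hy : y ∈ R
        · obtain ⟨t', ht'⟩ := (hE'.mem y).1 (hsub ⟨hL y List.mem_cons_self, hy⟩)
          refine ⟨max t t', ?_⟩
          intro x hx hxR
          rcases List.mem_cons.1 hx with h | h
          · subst h
            exact hE'.mono _ _ _ (le_max_right _ _) ht'
          · exact hE'.mono _ _ _ (le_max_left _ _) (ht x h hxR)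
        · refine ⟨t, ?_⟩
          intro x hx hxR
          rcases List.mem_cons.1 hx with h | h
          · subst h
            exact absurd hxR hy
          · exact ht x h hxR
    obtain ⟨t, ht⟩ := key (E (p s)) (fun x hx => (hE.mem x).2 ⟨_, hx⟩)
    exact ⟨t, (hPiff s t).2 ht⟩
  refine ⟨fun s => Nat.find (hex s), co_find (P := P) hP hex _, ?_, ?_⟩
  · intro s s' hss
    apply Nat.find_min'
    rw [hPiff]
    intro x hx hxR
    exact (hPiff _ _).1 (Nat.find_spec (hex s')) x (hE.mono _ _ _ (hmono hss) hx) hxR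
  · intro s
    exact (hPiff _ _).1 (Nat.find_spec (hex s))

theorem pf_BA (hBP : TARGET_BP) : TARGET_BA := by
  intro A hA hQ
  refine ⟨hA, ?_⟩
  rintro ⟨E, hE, p, hp, hmono, hprompt⟩
  obtain ⟨R, hR, hRx, htail, hcol⟩ := hQ
  obtain ⟨V, ⟨n, hV⟩, hcov⟩ := hBP Set.univ A {V | ∃ n, V = {x | ∀ m ≤ n, x ∉ R m}} E p ce_univ hE
    (by
      rintro V ⟨n, rfl⟩
      exact ce_tail hR n) htail hp hmono
  -- columns
  have hcolcov : ∀ m, Cov A Set.univ E p (R m \ A) := by
    intro m
    obtain ⟨k, Uc, h0, hk, hce, hpair⟩ := hcol m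
    have hdec : ∀ i < k, Uc (i + 1) ⊆ Uc i := by
      intro i hi
      obtain ⟨C, _, h1, h2, _⟩ := hpair i hi
      exact h1.trans h2
    have hup : ∀ i ≤ k, Uc i ⊆ R m := by
      intro i
      induction i with
      | zero => intro _; rw [h0]
      | succ i ih => intro hi; exact (hdec i (by omega)).trans (ih (by omega))
    have hdown : ∀ j ≤ k, Uc k ⊆ Uc (k - j) := by
      intro j
      induction j with
      | zero => intro _; simp
      | succ j ih =>
        intro hj
        have h1 := hdec (k - (j + 1)) (by omega)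
        have e : k - (j + 1) + 1 = k - j := by omega
        rw [e] at h1
        exact (ih (by omega)).trans h1
    have hstep : ∀ i < k, Cov A Set.univ E p (Uc i \ Uc (i + 1)) := by
      intro i hi
      obtain ⟨E', hE'⟩ := exists_enum (hce (i + 1) (by omega))
      have hsub : A ∩ R m ⊆ Uc (i + 1) := by
        rw [← hk]
        have := hdown (k - (i + 1)) (by omega)
        have e : k - (k - (i + 1)) = i + 1 := by omega
        rwa [e] at this
      obtain ⟨p', hp', hmono', hpp⟩ := exists_bound hE hE' hp hmono (hR m).1 (hR m).2 hsub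
      obtain ⟨V', hV', pl, hgood, hpl⟩ := hBP (Uc i) (Uc (i + 1)) {Set.univ} E' p'
        (hce i (by omega)) hE'
        (by
          intro V hV
          rw [Set.mem_singleton_iff] at hV
          subst hV
          rw [Set.compl_univ]
          exact ⟨ce_univ, ce_empty⟩) (hpair i hi) hp' hmono'
      rw [Set.mem_singleton_iff] at hV'
      subst hV'
      refine ⟨pl, ?_, ?_⟩
      · intro q hq
        obtain ⟨g1, g2, g3⟩ := hgood q hq
        refine ⟨?_, Set.subset_univ _, ?_⟩
        · intro x hx hxA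
          have hxR : x ∈ R m := hup i (by omega) (g2 hx.1)
          exact g1 hx (hsub ⟨hxA, hxR⟩)
        · intro s x hw hnw hxE
          have hxR : x ∈ R m := hup i (by omega) (g2 ⟨s, hw⟩)
          exact g3 s x hw hnw (hpp s x hxE hxR)
      · intro x hx
        exact hpl x ⟨⟨hx.1, trivial⟩, hx.2⟩
    have hind : ∀ j ≤ k, Cov A Set.univ E p (R m \ Uc j) := by
      intro j
      induction j with
      | zero =>
        intro _
        apply cov_empty
        rw [h0]
        simp
      | succ j ih =>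
        intro hj
        refine cov_mono ?_ (cov_union (ih (by omega)) (hstep j (by omega)))
        intro x hx
        by_cases h : x ∈ Uc j
        · exact Or.inr ⟨h, hx.2⟩
        · exact Or.inl ⟨hx.1, h⟩
    refine cov_mono ?_ (hind k le_rfl)
    rw [hk]
    intro x hx
    exact ⟨hx.1, fun h => hx.2 h.1⟩
  have hfin : ∀ n, Cov A Set.univ E p ({x | ∃ m ≤ n, x ∈ R m} \ A) := by
    intro n
    induction n with
    | zero =>
      refine cov_mono ?_ (hcolcov 0)
      rintro x ⟨⟨m, hm, hx⟩, hxA⟩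
      have : m = 0 := by omega
      subst this
      exact ⟨hx, hxA⟩
    | succ n ih =>
      refine cov_mono ?_ (cov_union ih (hcolcov (n + 1)))
      rintro x ⟨⟨m, hm, hx⟩, hxA⟩
      rcases Nat.lt_or_ge n m with h | h
      · have : m = n + 1 := by omega
        subst this
        exact Or.inr ⟨hx, hxA⟩
      · exact Or.inl ⟨⟨m, h, hx⟩, hxA⟩
  obtain ⟨pl, hgood, hpl⟩ := cov_union hcov (hfin n)
  obtain ⟨c, hc⟩ := ce_iff_code.1 ce_empty
  have hgc : Good A Set.univ E p (c, c) := by
    refine ⟨?_, Set.subset_univ _, ?_⟩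
    · intro x hx
      exact absurd hx.1 (by rw [← hc]; exact Set.notMem_empty x)
    · intro s x hw _ _
      have : x ∈ W c := ⟨s, hw⟩
      rw [← hc] at this
      exact this
  have hgood' : ∀ q ∈ (c, c) :: pl, Good A Set.univ E p q := by
    intro q hq
    rcases List.mem_cons.1 hq with h | h
    · rw [h]; exact hgc
    · exact hgood q h
  have hne : flat ((c, c) :: pl) ≠ [] := by
    rw [flat_cons]
    exact List.cons_ne_nil _ _
  have hset : presSet (flat ((c, c) :: pl)) = Aᶜ := by
    ext x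
    rw [presSet_flat]
    constructor
    · rintro ⟨q, hq, hx⟩
      exact (hgood' q hq).1 hx
    · intro hx
      obtain ⟨q, hq, hxq⟩ := hpl x (by
        by_cases h : ∃ m ≤ n, x ∈ R m
        · exact Or.inr ⟨h, hx⟩
        · left
          refine ⟨⟨trivial, ?_⟩, hx⟩
          rw [hV]
          intro m hm hxm
          exact h ⟨m, hm, hxm⟩)
      exact ⟨q, List.mem_cons_of_mem _ hq, hxq⟩
  obtain ⟨x, s, h1, h2⟩ := hprompt _ hne hset
  rw [presSt_flat] at h1
  obtain ⟨q, hq, hw, hnw⟩ := h1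
  exact (hgood' q hq).2.2 s x hw hnw h2

end Pool.Agent.H73.VT
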