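import Mathlib
import Pool.Agent.H46.VT.Red
import Pool.Agent.H46.VT.Tools

/-!
# MP_36d07e_lc: module GB
-/

namespace Pool.Agent.H73.VT

open _root_.VT
open Pool.Agent.H46.VT
open Nat.Partrec (Code)

theorem pf_GB (hRA : TARGET_RA) (hLF : TARGET_LF) (hSP : TARGET_SP) (hPI : TARGET_PI) :
    TARGET_GB := by
  intro ph hrun k x hblk htr hinf hxC hxS hxB
  by_contra hxA
  obtain ⟨_, _, hCmono, _, _, _, hleave, _, hlow, _, _, _, _⟩ := hRA ph hrun
  obtain ⟨hlf1, hlf2, _, _⟩ := hLF ph hrun
  obtain ⟨s1, hs1⟩ := hxS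
  obtain ⟨s2, hs2⟩ := hxB
  obtain ⟨s3, hs3⟩ := hxC
  have hdisj : ∀ t, ¬ Wst (rs' k) t x := by
    intro t ht
    obtain ⟨t', ht', hphi⟩ := hlf1 k hinf x (max (max s1 s3) t)
    have h1 := hphi.1 (hCmono _ s3 t' x (by omega) hs3)
    exact (h1.1 (wst_mono (by omega) hs1)) (wst_mono (by omega) ht)
  obtain ⟨t0, ht0, hphi⟩ := hlf1 k hinf x (max s1 s2)
  have hD : Dst ph (rl k) (rb k) t0 x :=
    (hphi.2.2.1 (wst_mono (by omega) hs1) (fun hA => hxA ⟨t0, hA⟩)).1 (wst_mono (by omega) hs2)
  obtain ⟨t1, ht1, k1, hk1, hann, hrl, hrb⟩ := hD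
  obtain ⟨_, hpos, hact, hmin⟩ := hann
  obtain ⟨hcur1, hg1, hw1⟩ := hact
  have hg : gX x k = 0 := by
    rw [htr.2 k le_rfl]
    exact (hlf2 k).2 hinf
  obtain ⟨hsp1, hsp2, _, _⟩ := hSP ph hrun t1 x
  have hkL := htr.1
  have hk1k : k1 ≤ k := by
    by_contra hlt
    have hlt' : k < k1 := by omega
    apply hmin k hlt'
    rcases hblk with ⟨h0, hkm⟩ | ⟨h0, hmm, hkm⟩
    · -- block of `0`
      have hk1m : k1 < mX x := by
        by_contra hcon
        rw [hrl, h0] at hcur1
        unfold cur at hcur1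
        rw [if_neg hcon] at hcur1
        omega
      have hp : (ph t1 x).2 ≤ mX x := by
        rw [hpos]
        unfold ptr
        rw [if_pos hk1m]
        omega
      refine ⟨⟨?_, hg, ?_⟩, hrl.symm, hrb.symm⟩
      · rw [h0]
        unfold cur
        rw [if_pos hkm]
      · rcases hsp2 hp k hkm h0 hg with h | h
        · exact h
        · exact absurd h (hdisj _)
    · have hk1m : ¬ k1 < mX x := by
        intro hcon
        apply h0
        rw [← hrl, hcur1]
        unfold cur
        rw [if_pos hcon]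
      have hkm' : ¬ k < mX x := by omega
      have hc : rl k = cur x (ph t1 x).1 k := by
        rw [← hrl, hcur1]
        unfold cur
        rw [if_neg hk1m, if_neg hkm']
      have hp : (ph t1 x).2 ≤ LX x + 2 := by
        rw [hpos]
        unfold ptr
        rw [if_neg hk1m]
        omega
      refine ⟨⟨hc, hg, ?_⟩, hrl.symm, hrb.symm⟩
      rcases hsp1 hp k hkL hkm hc hg with h | h
      · exact h
      · exact absurd h (hdisj _)
  have hmL : mX x ≤ LX x := by unfold LX; omega
  have hrr : rr x (ph t1 x).2 = k1 + 1 := by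
    rw [hpos]
    unfold ptr rr
    split_ifs <;> omega
  have hp2 : (ph t1 x).2 ≤ LX x + 2 := by
    rw [hpos]
    unfold ptr
    split_ifs <;> omega
  have hlen : (wX x).length = LX x := by
    refine (hleave t1 x ?_).1
    intro h
    rw [h] at hp2
    simp at hp2
  obtain ⟨t2, ht2, hfin⟩ := hPI ph hrun x t1 hlen (by omega) (by
    intro k' _ hk'
    rw [hrr] at hk'
    exact htr.2 k' (by omega))
  apply hxA
  refine ⟨t2, ?_⟩
  rcases hblk with ⟨h0, hkm⟩ | ⟨h0, hmm, hkm⟩
  · have hk1m : k1 < mX x := by omega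
    have hp : (ph t1 x).2 ≤ mX x + 1 := by
      rw [hpos]
      unfold ptr
      rw [if_pos hk1m]
      omega
    have hl := (hlow t1 t2 x ht2 hp).1
    rcases hfin with h | h
    · omega
    · left
      exact ⟨h0, h⟩
  · right
    refine ⟨h0, hmm, ?_⟩
    have hk1m : ¬ k1 < mX x := by
      intro hcon
      apply h0
      rw [← hrl, hcur1]
      unfold cur
      rw [if_pos hcon]
    have hli : li (rl k) = (ph t1 x).1 := by
      rw [← hrl, hcur1]
      unfold li cur
      rw [if_neg hk1m]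
      simp
    rw [hli]
    exact hfin

end Pool.Agent.H73.VT
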